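import Mathlib

namespace Pool.Agent.Results.MP_2c59d0_an.Bounded

variable {γ : ℝ} {q : ℕ} {y : ℕ → ℝ}

lemma pos (hγ : 0 < γ) (h0 : ∀ i < 2 * q + 3, 0 < y i)
    (hr : ∀ i, y (i + (2 * q + 3)) = γ + y i / y (i + (2 * q + 1))) (i : ℕ) : 0 < y i := by
  induction i using Nat.strong_induction_on with
  | _ i ih =>
    rcases lt_or_ge i (2 * q + 3) with h | h
    · exact h0 i h
    · obtain ⟨j, rfl⟩ : ∃ j, i = j + (2 * q + 3) := ⟨i - (2 * q + 3), by omega⟩
      rw [hr]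
      have := ih j (by omega)
      have := ih (j + (2 * q + 1)) (by omega)
      positivity

lemma low (hp : ∀ i, 0 < y i)
    (hr : ∀ i, y (i + (2 * q + 3)) = γ + y i / y (i + (2 * q + 1))) {i : ℕ} (h : 2 * q + 3 ≤ i) :
    γ < y i := by
  obtain ⟨j, rfl⟩ : ∃ j, i = j + (2 * q + 3) := ⟨i - (2 * q + 3), by omega⟩
  rw [hr]
  have := div_pos (hp j) (hp (j + (2 * q + 1)))
  linarith

lemma large (hγ : 1 ≤ γ) (hp : ∀ i, 0 < y i)
    (hr : ∀ i, y (i + (2 * q + 3)) = γ + y i / y (i + (2 * q + 1))) :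
    ∃ M, ∀ i, 2 * q + 3 ≤ i → y i ≤ M := by
  obtain ⟨ε, hε, hε1, hL⟩ : ∃ ε : ℝ, 0 < ε ∧ ε ≤ 1 ∧ ∀ i, 2 * q + 3 ≤ i → i < 2 * (2 * q + 3) →
      γ + ε ≤ y i ∧ y i ≤ (γ + ε) / ε := by
    have e1 : ∀ i, 2 * q + 3 ≤ i → ∀ᶠ ε in nhdsWithin (0 : ℝ) (Set.Ioi 0),
        γ + ε ≤ y i ∧ y i ≤ (γ + ε) / ε := by
      intro i hi
      have := low hp hr hi
      have hy := hp i
      filter_upwards [Ioo_mem_nhdsGT (show (0 : ℝ) < min (y i - γ) (1 / y i) from
        lt_min (by linarith) (by positivity))] with ε ⟨h1, h2⟩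
      rw [lt_min_iff, lt_div_iff₀ hy] at h2
      refine ⟨by linarith, ?_⟩
      rw [le_div_iff₀ h1]; linarith
    have e2 := (Filter.eventually_all_finset (Finset.Ico (2 * q + 3) (2 * (2 * q + 3)))).2
      fun i hi => e1 i (Finset.mem_Ico.1 hi).1
    obtain ⟨ε, h1, h2⟩ := (e2.and (Ioo_mem_nhdsGT one_pos)).exists
    exact ⟨ε, h2.1, h2.2.le, fun i a b => h1 i (Finset.mem_Ico.2 ⟨a, b⟩)⟩
  refine ⟨(γ + ε) / ε, fun i hi => And.right (a := γ + ε ≤ y i) ?_⟩
  induction i using Nat.strong_induction_on with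
  | _ i ih =>
    rcases lt_or_ge i (2 * (2 * q + 3)) with h | h
    · exact hL i hi h
    · obtain ⟨j, rfl⟩ : ∃ j, i = j + (2 * q + 3) := ⟨i - (2 * q + 3), by omega⟩
      rw [hr]
      obtain ⟨a1, a2⟩ := ih j (by omega) (by omega)
      obtain ⟨b1, b2⟩ := ih (j + (2 * q + 1)) (by omega) (by omega)
      have hb := hp (j + (2 * q + 1))
      rw [le_div_iff₀ hε] at a2 b2
      constructor
      · rw [add_le_add_iff_left, le_div_iff₀ hb]; linarith
      · have c1 : y j / y (j + (2 * q + 1)) ≤ 1 / ε := by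
          rw [div_le_div_iff₀ hb hε]; linarith
        have c2 : γ + 1 / ε ≤ (γ + ε) / ε := by
          rw [le_div_iff₀ hε, add_mul, one_div_mul_cancel hε.ne']
          nlinarith
        linarith

lemma small (hγ : 0 < γ) (hγ1 : γ < 1) (hp : ∀ i, 0 < y i)
    (hr : ∀ i, y (i + (2 * q + 3)) = γ + y i / y (i + (2 * q + 1))) : ∃ M, ∀ i, y i ≤ M := by
  set N := 2 * q + 3 with hN
  obtain ⟨δ, hδ⟩ : ∃ δ, δ = (1 - γ) / 3 := ⟨_, rfl⟩
  have hδ0 : 0 < δ := by linarith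
  obtain ⟨ρ, hρ⟩ : ∃ ρ, ρ = 2 / γ := ⟨_, rfl⟩
  have hργ : ρ * γ = 2 := by rw [hρ]; field_simp
  have hρ1 : 1 ≤ ρ := by nlinarith
  obtain ⟨Λ, hΛ1, hΛ2⟩ : ∃ Λ, 1 / δ ≤ Λ ∧ 2 * ρ ^ (q + 1) ≤ Λ :=
    ⟨max _ _, le_max_left _ _, le_max_right _ _⟩
  have hρq : 1 ≤ ρ ^ (q + 1) := one_le_pow₀ hρ1
  have hΛ : 2 ≤ Λ := by linarith
  rw [div_le_iff₀ hδ0] at hΛ1
  obtain ⟨T, hT⟩ := exists_pow_lt_of_lt_one (show 0 < γ / Λ by positivity)
    (show γ + 2 * δ < 1 by linarith)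
  rw [lt_div_iff₀ (by linarith)] at hT
  obtain ⟨M0, hM0, hM1⟩ : ∃ M0, Λ ≤ M0 ∧ ∀ i < 2 * N, y i ≤ M0 := by
    have h0 : 0 ≤ ∑ i ∈ Finset.range (2 * N), y i := Finset.sum_nonneg fun i _ => (hp i).le
    refine ⟨Λ + ∑ i ∈ Finset.range (2 * N), y i, by linarith, fun i hi => ?_⟩
    have := Finset.single_le_sum (f := y) (fun i _ => (hp i).le) (Finset.mem_range.2 hi)
    linarith
  have grow : ∀ i, N ≤ i → ∀ t, y (i + t * N) + 1 ≤ (y i + 1) * ρ ^ t := by
    intro i hi t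
    induction t with
    | zero => simp
    | succ t ih =>
      rw [show i + (t + 1) * N = i + t * N + N by ring, hr, pow_succ, ← mul_assoc]
      have a1 := low hp hr (i := i + t * N + (2 * q + 1)) (by omega)
      have a2 := hp (i + t * N)
      have a3 : y (i + t * N) / y (i + t * N + (2 * q + 1)) ≤ y (i + t * N) * ρ := by
        rw [div_le_iff₀ (by linarith), mul_assoc]
        exact le_mul_of_one_le_right a2.le (by nlinarith)
      have a4 := mul_le_mul_of_nonneg_right ih (show 0 ≤ ρ by linarith)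
      nlinarith
  obtain ⟨k0, hk0⟩ := pow_unbounded_of_one_lt (Λ * (M0 + 1) * ρ ^ ((q + 1) * T + 2) / δ)
    (show (1 : ℝ) < 2 by norm_num)
  rw [div_lt_iff₀ hδ0] at hk0
  refine ⟨max (δ * Λ ^ k0) M0, fun n1 => ?_⟩
  by_contra hcon
  rw [not_le, max_lt_iff] at hcon
  obtain ⟨n0, hn0, hmax⟩ := (Finset.range (n1 + 1)).exists_max_image y ⟨0, by simp⟩
  have hrec : ∀ i ≤ n0, y i ≤ y n0 := fun i hi =>
    hmax i (Finset.mem_range.2 (by have := Finset.mem_range.1 hn0; omega))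
  have hM2 : δ * Λ ^ k0 < y n0 := hcon.1.trans_le (hmax n1 (by simp))
  have hM3 : M0 < y n0 := hcon.2.trans_le (hmax n1 (by simp))
  have hex : ∃ k, y n0 ≤ δ * Λ ^ k := by
    obtain ⟨k, hk⟩ := pow_unbounded_of_one_lt (y n0 / δ) (show 1 < Λ by linarith)
    rw [div_lt_iff₀ hδ0] at hk
    exact ⟨k, by linarith⟩
  obtain ⟨k, hk1, hk2, hk3⟩ : ∃ k, k0 ≤ k ∧ δ * Λ ^ k < y n0 ∧ y n0 ≤ δ * Λ ^ (k + 1) := by
    have h1 : k0 < Nat.find hex := by
      by_contra h
      have := pow_le_pow_right₀ (show 1 ≤ Λ by linarith) (not_lt.1 h)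
      have := Nat.find_spec hex
      nlinarith
    refine ⟨Nat.find hex - 1, by omega, not_le.1 (Nat.find_min hex (by omega)), ?_⟩
    rw [Nat.sub_add_cancel (by omega)]
    exact Nat.find_spec hex
  obtain ⟨J, hJ⟩ : ∃ J, J = (q + 1) * (k + 1 + T) + 2 := ⟨_, rfl⟩
  have key : (M0 + 1) * ρ ^ J ≤ y n0 := by
    have a1 : (2 * ρ ^ (q + 1)) ^ k ≤ Λ ^ k := pow_le_pow_left₀ (by positivity) hΛ2 k
    have a2 : (2 : ℝ) ^ k0 ≤ 2 ^ k := pow_le_pow_right₀ (by norm_num) hk1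
    have hM : 0 ≤ M0 + 1 := by linarith
    calc (M0 + 1) * ρ ^ J
        = (ρ ^ (q + 1) * (M0 + 1) * ρ ^ ((q + 1) * T + 2)) * (ρ ^ (q + 1)) ^ k := by
          rw [hJ]; ring
      _ ≤ (Λ * (M0 + 1) * ρ ^ ((q + 1) * T + 2)) * (ρ ^ (q + 1)) ^ k := by
          gcongr; linarith
      _ ≤ (2 ^ k * δ) * (ρ ^ (q + 1)) ^ k := by
          exact mul_le_mul_of_nonneg_right (hk0.le.trans (by gcongr)) (by positivity)
      _ = δ * (2 * ρ ^ (q + 1)) ^ k := by rw [mul_pow]; ring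
      _ ≤ δ * Λ ^ k := by gcongr
      _ ≤ _ := hk2.le
  have back : ∀ i t, N ≤ i → t ≤ J → i + t * N = n0 → M0 < y i := by
    intro i t hi ht e
    have a1 := grow i hi t
    rw [e] at a1
    by_contra h
    have a2 : (y i + 1) * ρ ^ t ≤ (M0 + 1) * ρ ^ J :=
      mul_le_mul (by linarith) (pow_le_pow_right₀ hρ1 ht) (by positivity) (by linarith)
    linarith
  obtain ⟨b, hb, hbn⟩ : ∃ b, N ≤ b ∧ b + J * N = n0 := by
    have h2 : 2 * N ≤ n0 := by
      by_contra h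
      linarith [hM1 n0 (not_le.1 h)]
    obtain ⟨t, ht⟩ : ∃ t, n0 / N = t + 1 := ⟨n0 / N - 1, by
      have : 1 ≤ n0 / N := (Nat.le_div_iff_mul_le (by omega)).2 (by omega)
      omega⟩
    have e : N + n0 % N + t * N = n0 := by
      have := Nat.div_add_mod n0 N
      rw [ht] at this
      linarith
    have hlt := Nat.mod_lt n0 (show 0 < N by omega)
    have hJt : J ≤ t := by
      by_contra h
      linarith [back _ t (Nat.le_add_right _ _) (by omega) e, hM1 (N + n0 % N) (by omega)]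
    obtain ⟨d, rfl⟩ := Nat.exists_eq_add_of_le hJt
    exact ⟨N + n0 % N + d * N, by omega, by linarith⟩
  have step : ∀ s j, y (b + (s + 2) + (j + 1) * N) =
      γ + y (b + (s + 2) + j * N) / y (b + s + (j + 1) * N) := by
    intro s j
    rw [show b + (s + 2) + (j + 1) * N = b + (s + 2) + j * N + N by ring, hr]
    congr 3
    rw [hN]; ring
  have L1 : ∀ s a, (∀ j, a ≤ j → b + s + j * N ≤ n0 → Λ ≤ y (b + s + j * N)) →
      ∀ j, a + (k + 1) ≤ j → b + (s + 2) + j * N ≤ n0 → y (b + (s + 2) + j * N) ≤ γ + 2 * δ := by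
    intro s a h
    have : ∀ t, b + (s + 2) + (a + t) * N ≤ n0 →
        y (b + (s + 2) + (a + t) * N) ≤ γ + δ + y n0 / Λ ^ t := by
      intro t
      induction t with
      | zero => intro h'; have := hrec _ h'; rw [pow_zero, div_one]; linarith
      | succ t ih =>
        intro h'
        rw [← add_assoc a t 1] at h' ⊢
        have e : (a + t + 1) * N = (a + t) * N + N := by ring
        have a1 := ih (by omega)
        have a2 := h (a + t + 1) (by omega) (by omega)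
        rw [step]
        have a3 : y (b + (s + 2) + (a + t) * N) / y (b + s + (a + t + 1) * N) ≤
            (γ + δ + y n0 / Λ ^ t) / Λ :=
          div_le_div₀ ((hp _).le.trans a1) a1 (by linarith) a2
        have a4 : (γ + δ) / Λ ≤ δ := by rw [div_le_iff₀ (by linarith)]; linarith
        rw [add_div, div_div, ← pow_succ] at a3
        linarith
    intro j hj h'
    obtain ⟨t, rfl⟩ : ∃ t, j = a + t := ⟨j - a, by omega⟩
    have a1 := this t h'
    have a2 : y n0 / Λ ^ t ≤ δ := by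
      rw [div_le_iff₀ (by positivity)]
      exact hk3.trans (mul_le_mul_of_nonneg_left
        (pow_le_pow_right₀ (by linarith) (by omega)) hδ0.le)
    linarith
  have L2 : ∀ s a, (∀ j, a ≤ j → b + s + j * N ≤ n0 → y (b + s + j * N) ≤ γ + 2 * δ) →
      ∀ j, a + T ≤ j → b + (s + 2) + j * N ≤ n0 → Λ ≤ y (b + (s + 2) + j * N) := by
    intro s a h
    have hθ : 0 < γ + 2 * δ := by linarith
    have : ∀ t, b + (s + 2) + (a + t) * N ≤ n0 →
        γ / (γ + 2 * δ) ^ t ≤ y (b + (s + 2) + (a + t) * N) := by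
      intro t
      induction t with
      | zero => intro _; rw [pow_zero, div_one]; exact (low hp hr (by omega)).le
      | succ t ih =>
        intro h'
        rw [← add_assoc a t 1] at h' ⊢
        have e : (a + t + 1) * N = (a + t) * N + N := by ring
        have a1 := ih (by omega)
        have a2 := h (a + t + 1) (by omega) (by omega)
        rw [step]
        have a3 : γ / (γ + 2 * δ) ^ t / (γ + 2 * δ) ≤
            y (b + (s + 2) + (a + t) * N) / y (b + s + (a + t + 1) * N) :=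
          div_le_div₀ (hp _).le a1 (hp _) a2
        rw [div_div, ← pow_succ] at a3
        linarith
    intro j hj h'
    obtain ⟨t, rfl⟩ : ∃ t, j = a + t := ⟨j - a, by omega⟩
    refine le_trans ?_ (this t h')
    rw [le_div_iff₀ (by positivity)]
    have := pow_le_pow_of_le_one hθ.le (by linarith) (show T ≤ t by omega)
    nlinarith
  have L3 : ∀ r j, r * (k + 1 + T) ≤ j → b + 4 * r + j * N ≤ n0 → Λ ≤ y (b + 4 * r + j * N) := by
    intro r
    induction r with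
    | zero =>
      intro j _ h'
      have hj : j ≤ J := by
        by_contra h
        have : (J + 1) * N ≤ j * N := Nat.mul_le_mul_right _ (by omega)
        have e : (J + 1) * N = J * N + N := by ring
        omega
      obtain ⟨d, hd⟩ := Nat.exists_eq_add_of_le hj
      exact hM0.trans (back _ d (by omega) (by omega) (by rw [← hbn, hd]; ring)).le
    | succ r ih =>
      intro j hj h'
      exact L2 _ _ (L1 _ _ ih) j (by linarith) h'
  have e1 : b + 4 * (q + 1) + (J - 2) * N + 2 = n0 := by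
    rw [← hbn, hJ, Nat.add_sub_cancel, hN]; ring
  have f1 := L3 (q + 1) (J - 2) (by omega) (by omega)
  obtain ⟨i, hi⟩ : ∃ i, n0 = i + N := ⟨n0 - N, by omega⟩
  have f2 := hr i
  rw [← hi, show i + (2 * q + 1) = b + 4 * (q + 1) + (J - 2) * N by omega] at f2
  have f3 : y i / y (b + 4 * (q + 1) + (J - 2) * N) ≤ y n0 / 2 :=
    div_le_div₀ (hp _).le (hrec i (by omega)) (by norm_num) (by linarith)
  linarith

theorem result (γ : ℝ) (hγ : 0 < γ) (m : ℕ) (hm : 1 ≤ m) (x : ℤ → ℝ)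
    (h0 : ∀ i : ℤ, -(2 * m) ≤ i → i ≤ 0 → 0 < x i)
    (hr : ∀ n : ℤ, 0 ≤ n → x (n + 1) = γ + x (n - 2 * m) / x (n - 1)) :
    ∃ M : ℝ, ∀ n : ℤ, -(2 * m) ≤ n → |x n| ≤ M := by
  obtain ⟨q, rfl⟩ : ∃ q, m = q + 1 := ⟨m - 1, by omega⟩
  set y : ℕ → ℝ := fun i => x (i - 2 * (q + 1 : ℕ)) with hy
  have hr' : ∀ i, y (i + (2 * q + 3)) = γ + y i / y (i + (2 * q + 1)) := by
    intro i
    have := hr i (by positivity)
    simp only [hy]
    rw [show ((i + (2 * q + 3) : ℕ) : ℤ) - 2 * (q + 1 : ℕ) = i + 1 by push_cast; ring, this,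
      show ((i + (2 * q + 1) : ℕ) : ℤ) - 2 * (q + 1 : ℕ) = i - 1 by push_cast; ring]
  have hp := pos (y := y) (q := q) hγ
    (fun i hi => h0 (i - 2 * (q + 1 : ℕ)) (by omega) (by omega)) hr'
  obtain ⟨M, hM⟩ : ∃ M, ∀ i, y i ≤ M := by
    rcases lt_or_ge γ 1 with h | h
    · exact small hγ h hp hr'
    · obtain ⟨M, hM⟩ := large h hp hr'
      have h0 : 0 ≤ ∑ i ∈ Finset.range (2 * q + 3), y i := Finset.sum_nonneg fun i _ => (hp i).le
      refine ⟨|M| + ∑ i ∈ Finset.range (2 * q + 3), y i, fun i => ?_⟩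
      rcases lt_or_ge i (2 * q + 3) with hi | hi
      · have := Finset.single_le_sum (f := y) (fun i _ => (hp i).le) (Finset.mem_range.2 hi)
        linarith [abs_nonneg M]
      · linarith [hM i hi, le_abs_self M]
  refine ⟨M, fun n hn => ?_⟩
  obtain ⟨i, hi⟩ : ∃ i : ℕ, n = i - 2 * (q + 1 : ℕ) := ⟨(n + 2 * (q + 1 : ℕ)).toNat, by omega⟩
  rw [hi]
  exact (abs_of_pos (hp i)).trans_le (hM i)

end Pool.Agent.Results.MP_2c59d0_an.Bounded
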